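import Pool.Agent.helper17.RX.Spec

set_option autoImplicit false

namespace EN

open Finset Real

private theorem ENX_adp {m : ℕ} {S : ℕ → Om m → Finset (Fin m)} (h : Rounds S) (i : ℕ) : Adp (S i) := by
  intro x y hxy
  cases i with
  | zero => rw [h.1 x, h.1 y]
  | succ i => exact (h.2 i x).2 y (fun u hu => hxy u ((h.2 i x).1 hu))

private theorem ENX_log3 : (1 : ℝ) ≤ log 3 := by
  rw [Real.le_log_iff_exp_le (by norm_num)]
  exact (Real.exp_one_lt_d9.trans (by norm_num)).le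

private theorem ENX_notmem {m : ℕ} (u : Fin m) : u ∉ pa u := by
  simp [pa]

private theorem ENX_phi (inq : INQ_stmt) (t : ℝ) (h0 : 0 ≤ t) (h1 : t ≤ 1) : 0 ≤ phi t ∧ phi t ≤ 1 := by
  have := inq t t h0 h1 h0 h1 (fun h => h) (fun h => h)
  exact ⟨this.2.1, this.2.2.1⟩

private theorem ENX_a (acp : ACP_stmt) {m : ℕ} {Q : Om m → ℝ} (hQ : Law Q) (u : Fin m) (x : Om m) :
    0 ≤ a Q (pa u) u x ∧ a Q (pa u) u x ≤ 1 := by
  have h := (acp m Q hQ (pa u) u x).2.2.2.2.2.2 (ENX_notmem u)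
  exact ⟨h.2.1, h.2.2.1⟩

private theorem ENX_half : phi (1 / 2) = 0 := by
  unfold phi; norm_num

private theorem ENX_out (acp : ACP_stmt) (loc : LOC_stmt) {m : ℕ} {Q : Om m → ℝ} (hQ : Law Q)
    (Λ : Finset (Fin m)) (hΛ : ∀ x y : Om m, (∀ u ∈ Λ, x u = y u) → Q x = Q y) (u : Fin m)
    (hu : u ∉ Λ) (x : Om m) : Q x * phi (a Q (pa u) u x) = 0 := by
  rcases (hQ.1 x).eq_or_lt with h | h
  · rw [← h, zero_mul]
  · have hw : 0 < w Q (pa u) x := lt_of_lt_of_le h (acp m Q hQ (pa u) u x).2.1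
    have h2 := (loc m Q Λ hΛ (pa u)).2 u hu (ENX_notmem u) x
    have h3 : a Q (pa u) u x = 1 / 2 := by
      unfold a
      rw [h2]
      field_simp
    rw [h3, ENX_half, mul_zero]

/-- The exchange of the sums. -/
private theorem ENX_exch {m : ℕ} {κ : Type} (T : Finset κ) (S : κ → Om m → Finset (Fin m))
    (Q : Om m → ℝ) :
    ∑ τ ∈ T, X Q (S τ) =
      ∑ u : Fin m, ∑ τ ∈ T, ∑ x with u ∈ S τ x, Q x * phi (a Q (pa u) u x) := by
  rw [sum_comm]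
  refine sum_congr rfl fun τ _ => ?_
  unfold X
  have h1 : ∀ x : Om m, Q x * ∑ v ∈ S τ x, phi (a Q (pa v) v x) =
      ∑ u : Fin m, if u ∈ S τ x then Q x * phi (a Q (pa u) u x) else 0 := by
    intro x
    rw [mul_sum, ← sum_filter]
    congr 1
    ext u
    simp
  rw [sum_congr rfl fun x _ => h1 x, sum_comm]
  refine sum_congr rfl fun u _ => ?_
  rw [sum_filter]

private theorem ENX_term (acp : ACP_stmt) (inq : INQ_stmt) (loc : LOC_stmt) (j : ℕ) (B : ℝ)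
    {m : ℕ} {κ : Type} (T : Finset κ) (S : κ → ℕ → Om m → Finset (Fin m)) (Λ : Finset (Fin m))
    (N : ℝ) (u : Fin m)
    (ih : ∀ (Q : Om m → ℝ) (L : ℝ), Law Q → (∀ x y : Om m, (∀ u ∈ Λ, x u = y u) → Q x = Q y) →
      0 ≤ L → (∀ x, Q x ≤ exp L / 2 ^ m) →
      ∑ τ ∈ T, ∑ x with u ∈ S τ (j + 1) x, Q x ≤ N * (68 * (L + B)) ^ j)
    (Q : Om m → ℝ) (L : ℝ) (hQ : Law Q) (hΛ : ∀ x y : Om m, (∀ u ∈ Λ, x u = y u) → Q x = Q y)
    (hL : 0 ≤ L) (hd : ∀ x, Q x ≤ exp L / 2 ^ m) (n : ℝ)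
    (hn : n = ∑ x, Q x * phi (a Q (pa u) u x)) (hn0 : 0 < n) (hn1 : n ≤ 1) :
    ∑ τ ∈ T, ∑ x with u ∈ S τ (j + 1) x, Q x * phi (a Q (pa u) u x) ≤
      N * 68 ^ j * (n * ((L + B) + log (1 / n)) ^ j) := by
  have hph : ∀ x, 0 ≤ phi (a Q (pa u) u x) ∧ phi (a Q (pa u) u x) ≤ 1 := fun x =>
    ENX_phi inq _ (ENX_a acp hQ u x).1 (ENX_a acp hQ u x).2
  have h1 := ih (fun x => Q x * phi (a Q (pa u) u x) / n) (L + log (1 / n)) ?_ ?_ ?_ ?_
  · have h2 : ∑ τ ∈ T, ∑ x with u ∈ S τ (j + 1) x, Q x * phi (a Q (pa u) u x) / n =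
        (∑ τ ∈ T, ∑ x with u ∈ S τ (j + 1) x, Q x * phi (a Q (pa u) u x)) / n := by
      rw [sum_div]
      exact sum_congr rfl fun τ _ => by rw [sum_div]
    rw [h2, div_le_iff₀ hn0] at h1
    refine h1.trans (le_of_eq ?_)
    have e : L + log (1 / n) + B = (L + B) + log (1 / n) := by ring
    rw [e, mul_pow]
    ring
  · refine ⟨fun x => div_nonneg (mul_nonneg (hQ.1 x) (hph x).1) hn0.le, ?_⟩
    rw [← sum_div, ← hn, div_self hn0.ne']
  · intro x y hxy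
    have e1 := hΛ x y hxy
    have e2 := (loc m Q Λ hΛ (pa u)).1 x y hxy
    have e3 := (loc m Q Λ hΛ (insert u (pa u))).1 x y hxy
    simp only [a]
    rw [e1, e2, e3]
  · have : 0 ≤ log (1 / n) := Real.log_nonneg (by rw [le_div_iff₀ hn0]; linarith)
    linarith
  · intro x
    rw [Real.exp_add, Real.exp_log (by positivity)]
    have h3 : Q x * phi (a Q (pa u) u x) ≤ exp L / 2 ^ m := by
      calc Q x * phi (a Q (pa u) u x) ≤ Q x * 1 := mul_le_mul_of_nonneg_left (hph x).2 (hQ.1 x)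
        _ = Q x := mul_one _
        _ ≤ _ := hd x
    calc Q x * phi (a Q (pa u) u x) / n ≤ (exp L / 2 ^ m) / n := by gcongr
      _ = exp L * (1 / n) / 2 ^ m := by ring

private theorem ENX_sumX (acp : ACP_stmt) (inq : INQ_stmt) (klq : KLQ_stmt) (loc : LOC_stmt)
    (smx : SMX_stmt) (j : ℕ) {m : ℕ} {κ : Type} (T : Finset κ)
    (S : κ → ℕ → Om m → Finset (Fin m)) (Λ : Finset (Fin m)) (N : ℝ) (hN : 0 ≤ N)
    (ih : ∀ (Q : Om m → ℝ) (L : ℝ), Law Q → (∀ x y : Om m, (∀ u ∈ Λ, x u = y u) → Q x = Q y) →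
      0 ≤ L → (∀ x, Q x ≤ exp L / 2 ^ m) → ∀ u ∈ Λ,
      ∑ τ ∈ T, ∑ x with u ∈ S τ (j + 1) x, Q x ≤
        N * (68 * (L + 3 * (j + 1) * log (#Λ + 3))) ^ j)
    (Q : Om m → ℝ) (L : ℝ) (hQ : Law Q) (hΛ : ∀ x y : Om m, (∀ u ∈ Λ, x u = y u) → Q x = Q y)
    (hL : 0 ≤ L) (hd : ∀ x, Q x ≤ exp L / 2 ^ m) :
    ∑ τ ∈ T, X Q (S τ (j + 1)) ≤
      N * 68 ^ j * ((L + 1) * (L + 3 * (j + 1) * log (#Λ + 3) + 2 * log (#Λ + 3)) ^ j) := by
  classical
  have hph : ∀ u x, 0 ≤ phi (a Q (pa u) u x) ∧ phi (a Q (pa u) u x) ≤ 1 := fun u x =>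
    ENX_phi inq _ (ENX_a acp hQ u x).1 (ENX_a acp hQ u x).2
  have hlog : (1 : ℝ) ≤ log (#Λ + 3) := by
    refine ENX_log3.trans (Real.log_le_log (by norm_num) ?_)
    have : (0 : ℝ) ≤ (#Λ : ℝ) := Nat.cast_nonneg _
    linarith
  have hAj : (j : ℝ) ≤ L + 3 * (j + 1) * log (#Λ + 3) := by
    have hj : (0 : ℝ) ≤ (j : ℝ) := Nat.cast_nonneg _
    have h1 : (3 * ((j : ℝ) + 1)) * 1 ≤ 3 * ((j : ℝ) + 1) * log (#Λ + 3) :=
      mul_le_mul_of_nonneg_left hlog (by positivity)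
    linarith
  set A : ℝ := L + 3 * (j + 1) * log (#Λ + 3) with hA
  set n : Fin m → ℝ := fun u => ∑ x, Q x * phi (a Q (pa u) u x) with hn
  have hn0 : ∀ u, 0 ≤ n u := fun u => sum_nonneg fun x _ => mul_nonneg (hQ.1 x) (hph u x).1
  have hn1 : ∀ u, n u ≤ 1 := fun u => by
    calc n u ≤ ∑ x, Q x := sum_le_sum fun x _ =>
          (mul_le_mul_of_nonneg_left (hph u x).2 (hQ.1 x)).trans (le_of_eq (mul_one _))
      _ = 1 := hQ.2
  set s : Finset (Fin m) := Λ.filter fun u => 0 < n u with hs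
  rw [ENX_exch T (fun τ => S τ (j + 1)) Q]
  have hzero : ∀ u, u ∉ s →
      ∑ τ ∈ T, ∑ x with u ∈ S τ (j + 1) x, Q x * phi (a Q (pa u) u x) = 0 := by
    intro u hu
    have hx : ∀ x, Q x * phi (a Q (pa u) u x) = 0 := by
      by_cases huΛ : u ∈ Λ
      · have h0 : n u = 0 := by
          by_contra hne
          exact hu (by rw [hs]; exact mem_filter.2 ⟨huΛ, lt_of_le_of_ne (hn0 u) (Ne.symm hne)⟩)
        intro x
        exact (sum_eq_zero_iff_of_nonneg (fun x _ => mul_nonneg (hQ.1 x) (hph u x).1)).1 h0 x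
          (mem_univ x)
      · exact ENX_out acp loc hQ Λ hΛ u huΛ
    exact sum_eq_zero fun τ _ => sum_eq_zero fun x _ => hx x
  have hsub : ∑ u : Fin m, ∑ τ ∈ T, ∑ x with u ∈ S τ (j + 1) x, Q x * phi (a Q (pa u) u x) =
      ∑ u ∈ s, ∑ τ ∈ T, ∑ x with u ∈ S τ (j + 1) x, Q x * phi (a Q (pa u) u x) :=
    (sum_subset (subset_univ s) fun u _ hu => hzero u hu).symm
  rw [hsub]
  have hterm : ∀ u ∈ s, ∑ τ ∈ T, ∑ x with u ∈ S τ (j + 1) x, Q x * phi (a Q (pa u) u x) ≤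
      N * 68 ^ j * (n u * (A + log (1 / n u)) ^ j) := by
    intro u hu
    have hu' := mem_filter.1 hu
    exact ENX_term acp inq loc j (3 * (j + 1) * log (#Λ + 3)) T S Λ N u
      (fun Q L h1 h2 h3 h4 => ih Q L h1 h2 h3 h4 u hu'.1) Q L hQ hΛ hL hd (n u) rfl hu'.2 (hn1 u)
  have hsum : ∑ u ∈ s, n u ≤ L := by
    calc ∑ u ∈ s, n u ≤ ∑ u : Fin m, n u :=
          sum_le_sum_of_subset_of_nonneg (subset_univ s) fun u _ _ => hn0 u
      _ ≤ L := klq m Q hQ L hd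
  have hcard : log ((#s : ℝ) + 3) ≤ log ((#Λ : ℝ) + 3) := by
    have h1 : (#s : ℝ) ≤ (#Λ : ℝ) := by exact_mod_cast card_le_card (filter_subset _ _)
    have h0 : (0 : ℝ) ≤ (#s : ℝ) := Nat.cast_nonneg _
    exact Real.log_le_log (by linarith) (by linarith)
  have h5 := smx (Fin m) s n L A (log ((#Λ : ℝ) + 3)) j (fun u hu => ⟨(mem_filter.1 hu).2, hn1 u⟩)
    hsum hcard hAj hL
  have hCN : 0 ≤ N * 68 ^ j := mul_nonneg hN (by positivity)
  calc ∑ u ∈ s, ∑ τ ∈ T, ∑ x with u ∈ S τ (j + 1) x, Q x * phi (a Q (pa u) u x)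
      ≤ ∑ u ∈ s, N * 68 ^ j * (n u * (A + log (1 / n u)) ^ j) := sum_le_sum hterm
    _ = N * 68 ^ j * ∑ u ∈ s, n u * (A + log (1 / n u)) ^ j := by rw [mul_sum]
    _ ≤ N * 68 ^ j * ((L + 1) * (A + 2 * log ((#Λ : ℝ) + 3)) ^ j) :=
        mul_le_mul_of_nonneg_left h5 hCN

/-- The geometric sum. -/
private theorem ENX_geo (Y : ℝ) (hY : 34 ≤ Y) (j : ℕ) :
    Y * ∑ i ∈ range j, (17 : ℝ) ^ (j - i) * Y ^ i ≤ 34 * Y ^ j := by
  induction j with
  | zero => simp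
  | succ j ih =>
    have h1 : ∑ i ∈ range (j + 1), (17 : ℝ) ^ (j + 1 - i) * Y ^ i =
        17 * (∑ i ∈ range j, (17 : ℝ) ^ (j - i) * Y ^ i + Y ^ j) := by
      rw [sum_range_succ, mul_add, mul_sum]
      congr 1
      · refine sum_congr rfl fun i hi => ?_
        have hi' := mem_range.1 hi
        have e : j + 1 - i = (j - i) + 1 := by omega
        rw [e, pow_succ]
        ring
      · have e : j + 1 - j = 1 := by omega
        rw [e, pow_one]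
    rw [h1]
    have hp : 0 ≤ Y ^ j := pow_nonneg (by linarith) j
    have h2 : 34 * Y ^ j ≤ Y * Y ^ j := mul_le_mul_of_nonneg_right hY hp
    rw [pow_succ]
    nlinarith

private theorem ENX_base {m : ℕ} {κ : Type} (T : Finset κ) (S : κ → ℕ → Om m → Finset (Fin m))
    (v : Fin m) (N : ℝ) (hR : ∀ τ ∈ T, Rounds (S τ))
    (hN : ∑ τ ∈ T, (#{x : Om m | v ∈ S τ 1 x} : ℝ) / 2 ^ m ≤ N) (Q : Om m → ℝ) (hQ : Law Q) :
    ∑ τ ∈ T, ∑ x with v ∈ S τ 1 x, Q x ≤ N := by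
  refine le_trans (le_of_eq ?_) hN
  refine sum_congr rfl fun τ hτ => ?_
  have hr := hR τ hτ
  have hconst : ∀ x y : Om m, S τ 1 y = S τ 1 x := fun x y =>
    (hr.2 0 x).2 y (fun u hu => by rw [hr.1 x] at hu; simp at hu)
  by_cases hv : v ∈ S τ 1 (fun _ => false)
  · have hf : (univ.filter fun x : Om m => v ∈ S τ 1 x) = univ := by
      refine filter_true_of_mem fun x _ => ?_
      rw [hconst (fun _ => false) x]
      exact hv
    rw [hf, hQ.2, card_univ]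
    simp [Om]
  · have hf : (univ.filter fun x : Om m => v ∈ S τ 1 x) = ∅ := by
      refine filter_false_of_mem fun x _ => ?_
      rw [hconst (fun _ => false) x]
      exact hv
    rw [hf]
    simp

theorem ENX (acp : ACP_stmt) (inq : INQ_stmt) (yng : YNG_stmt) (mx : MAX_stmt) (klq : KLQ_stmt) (loc : LOC_stmt) (smx : SMX_stmt) : ENX_stmt := by
  intro j
  induction j using Nat.strong_induction_on with
  | _ j IH =>
  intro m κ T S Λ z N hR hN Q L hQ hΛ hL hd v hv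
  rcases Nat.eq_zero_or_pos j with hj | hj
  · subst hj
    have h := ENX_base T S v N hR (hN 1 v hv) Q hQ
    rw [pow_zero, mul_one]
    exact h
  have hN0 : 0 ≤ N := by
    refine le_trans ?_ (hN 0 v hv)
    exact sum_nonneg fun τ _ => by positivity
  have hlog : (1 : ℝ) ≤ log (#Λ + 3) := by
    refine ENX_log3.trans (Real.log_le_log (by norm_num) ?_)
    have : (0 : ℝ) ≤ (#Λ : ℝ) := Nat.cast_nonneg _
    linarith
  set l : ℝ := log (#Λ + 3) with hl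
  set A : ℝ := L + 3 * (j + 1) * l with hA
  have hj0 : (0 : ℝ) ≤ (j : ℝ) := Nat.cast_nonneg _
  have hA1 : L + 3 ≤ A := by
    have h1 : (3 * ((j : ℝ) + 1)) * 1 ≤ 3 * ((j : ℝ) + 1) * l :=
      mul_le_mul_of_nonneg_left hlog (by positivity)
    rw [hA]
    linarith
  have hX : ∀ i ∈ range j, ∑ τ ∈ T, X Q (S τ (i + 1)) ≤ N * (A * (68 * A) ^ i) := by
    intro i hi
    have hi' := mem_range.1 hi
    have h1 := ENX_sumX acp inq klq loc smx i T S Λ N hN0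
      (fun Q L h1 h2 h3 h4 u hu =>
        IH i hi' m κ T S Λ z N hR hN Q L h1 h2 h3 h4 u (mem_insert_of_mem hu)) Q L hQ hΛ hL hd
    refine h1.trans ?_
    have hi2 : (i : ℝ) + 1 ≤ (j : ℝ) := by exact_mod_cast hi'
    have hi0 : (0 : ℝ) ≤ (i : ℝ) := Nat.cast_nonneg _
    have h2 : L + 3 * ((i : ℝ) + 1) * l + 2 * l ≤ A := by
      have h3 : 3 * ((i : ℝ) + 1) * l ≤ 3 * (j : ℝ) * l :=
        mul_le_mul_of_nonneg_right (by linarith) (by linarith)
      rw [hA]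
      nlinarith
    have h3 : 0 ≤ L + 3 * ((i : ℝ) + 1) * l + 2 * l := by
      have : 0 ≤ 3 * ((i : ℝ) + 1) * l := mul_nonneg (by positivity) (by linarith)
      linarith
    have h4 : (L + 3 * ((i : ℝ) + 1) * l + 2 * l) ^ i ≤ A ^ i := pow_le_pow_left₀ h3 h2 i
    have h5 : (L + 1) * (L + 3 * ((i : ℝ) + 1) * l + 2 * l) ^ i ≤ A * A ^ i :=
      mul_le_mul (by linarith) h4 (pow_nonneg h3 i) (by linarith)
    calc N * 68 ^ i * ((L + 1) * (L + 3 * ((i : ℝ) + 1) * l + 2 * l) ^ i)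
        ≤ N * 68 ^ i * (A * A ^ i) :=
          mul_le_mul_of_nonneg_left h5 (mul_nonneg hN0 (by positivity))
      _ = N * (A * (68 * A) ^ i) := by rw [mul_pow]; ring
  have hτ : ∀ τ ∈ T, ∑ x with v ∈ S τ (j + 1) x, Q x ≤
      ∑ i ∈ range j, 17 ^ (j - i) * X Q (S τ (i + 1)) +
        2 * ((#{x : Om m | v ∈ S τ (j + 1) x} : ℝ) / 2 ^ m) := by
    intro τ hτ
    have hr := hR τ hτ
    have h1 := (yng m Q hQ (S τ j) (ENX_adp hr j)).2
      (univ.filter fun x : Om m => v ∈ S τ (j + 1) x) (by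
        intro x hx y hy
        rw [mem_filter] at hx ⊢
        refine ⟨mem_univ _, ?_⟩
        rw [(hr.2 j x).2 y hy]
        exact hx.2)
    have h2 := mx m Q hQ (S τ) hr j
    have h3 : 2 * ((#{x : Om m | v ∈ S τ (j + 1) x} : ℝ) / 2 ^ m) =
        2 * (#{x : Om m | v ∈ S τ (j + 1) x} : ℝ) / 2 ^ m := by ring
    rw [h3]
    linarith
  have hgeo := ENX_geo (68 * A) (by linarith) j
  set Z : ℝ := ∑ i ∈ range j, (17 : ℝ) ^ (j - i) * (68 * A) ^ i with hZ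
  have hYj : 68 * A ≤ (68 * A) ^ j := le_self_pow₀ (by linarith) (by omega)
  have hfin : A * Z + 2 ≤ (68 * A) ^ j := by nlinarith
  calc ∑ τ ∈ T, ∑ x with v ∈ S τ (j + 1) x, Q x
      ≤ ∑ τ ∈ T, (∑ i ∈ range j, 17 ^ (j - i) * X Q (S τ (i + 1)) +
        2 * ((#{x : Om m | v ∈ S τ (j + 1) x} : ℝ) / 2 ^ m)) := sum_le_sum hτ
    _ = ∑ i ∈ range j, 17 ^ (j - i) * ∑ τ ∈ T, X Q (S τ (i + 1)) +
        2 * ∑ τ ∈ T, (#{x : Om m | v ∈ S τ (j + 1) x} : ℝ) / 2 ^ m := by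
          rw [sum_add_distrib, sum_comm, mul_sum]
          congr 1
          exact sum_congr rfl fun i _ => by rw [mul_sum]
    _ ≤ ∑ i ∈ range j, 17 ^ (j - i) * (N * (A * (68 * A) ^ i)) + 2 * N := by
          have h1 := hN (j + 1) v hv
          refine add_le_add (sum_le_sum fun i hi => ?_) (by linarith)
          exact mul_le_mul_of_nonneg_left (hX i hi) (by positivity)
    _ = N * (A * Z + 2) := by
          have e : ∑ i ∈ range j, (17 : ℝ) ^ (j - i) * (N * (A * (68 * A) ^ i)) = (N * A) * Z := by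
            rw [hZ, mul_sum]
            exact sum_congr rfl fun i _ => by ring
          rw [e]
          ring
    _ ≤ N * (68 * A) ^ j := mul_le_mul_of_nonneg_left hfin hN0

end EN
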